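import Pool.Agent.Results.MP_4819b8_nt.WindowsWeightTwo
import Pool.Agent.V1172.PW.Eng2

/-!
# Hecke characters of weight two of `GL_2` over number fields: all primes with norms in shrinking residue classes

Let `θ_j`, `j` in a countable set, be nontrivial characters of the Hecke algebras `𝕋₁(𝔫)` over number fields (for example all
of them, for all fields and all `𝔫`), `l` a prime number, `σ > 0` and `0 < κ ≤ 1/8`. For all `l`-adic integers `a` outside of
ONE set of Hausdorff dimension at most `(1 - 8κ) / σ`, for all `j` and all large `T`, ALL primes `℘ ∤ 𝔫` with `N℘ ≤ T` and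
`|N℘ - a|_l ≤ T^{-σ}`, that is, with norm in the residue class of `a` modulo the least `l^f ≥ T^σ`, satisfy

    `|θ_j(T_℘)| < (N℘)^{1/2} ((N℘)^κ + (N℘)^{-κ})`.

The dimension of `ℤ_l` is one, so that for every `σ > 1 - 8κ` (`σ < 1` is allowed) this holds for almost every residue class;
at all primes the bound is known for `κ = 7/64` only.
-/

set_option autoImplicit false

namespace Pool.Agent.Results.MP_4819b8_nt.NormsInResidueClasses

open Filter MeasureTheory NumberField IsDedekindDomain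
open WindowsWeightTwo (Character Large nm)

/-- **Theorem.** Let `P j` be a countable family of nontrivial characters (for example all the nontrivial characters of all
the Hecke algebras `𝕋₁(𝔫)` over all number fields), `l` a prime, `σ > 0` and `0 < κ ≤ 1/8`. There is a set `E` of `l`-adic
integers, of Hausdorff dimension at most `(1 - 8κ) / σ`, such that for all `a ∈ ℤ_l` outside `E`, all `j` and all large `T`,
every prime `℘ ∤ 𝔫` with `N℘ ≤ T` and `|N℘ - a|_l ≤ T^{-σ}` satisfies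
`|θ_j(T_℘)| < (N℘)^{1/2} ((N℘)^κ + (N℘)^{-κ})`. -/
theorem result {J : Type} [Countable J] (K : J → Type) [∀ j, Field (K j)] [∀ j, NumberField (K j)]
    (P : ∀ j, Character (K j)) (l : ℕ) [Fact l.Prime] (σ κ : ℝ) (hσ : 0 < σ) (hκ : 0 < κ) (hκ1 : κ ≤ 1 / 8) :
    ∃ E : Set ℤ_[l], dimH E ≤ ENNReal.ofReal ((1 - 8 * κ) / σ) ∧ ∀ a : ℤ_[l], a ∉ E → ∀ j : J,
      ∃ T₀ : ℝ, ∀ T : ℝ, T₀ ≤ T → ∀ v : HeightOneSpectrum (𝓞 (K j)), v ∉ (P j).bad →
        (Ideal.absNorm v.asIdeal : ℝ) ≤ T → ‖((Ideal.absNorm v.asIdeal : ℕ) : ℤ_[l]) - a‖ ≤ T ^ (-σ) →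
          ‖(P j).t v‖ < (Ideal.absNorm v.asIdeal : ℝ) ^ (1 / 2 : ℝ) *
            ((Ideal.absNorm v.asIdeal : ℝ) ^ κ + (Ideal.absNorm v.asIdeal : ℝ) ^ (-κ)) := by
  have one : ∀ j : J, ∃ E : Set ℤ_[l], dimH E ≤ ENNReal.ofReal ((1 - 8 * κ) / σ) ∧ ∀ a ∉ E,
      ∃ T₀ : ℝ, ∀ T : ℝ, T₀ ≤ T → ∀ v : HeightOneSpectrum (𝓞 (K j)), v ∉ (P j).bad →
        (Ideal.absNorm v.asIdeal : ℝ) ≤ T → ‖((Ideal.absNorm v.asIdeal : ℕ) : ℤ_[l]) - a‖ ≤ T ^ (-σ) →
          ‖(P j).t v‖ < (Ideal.absNorm v.asIdeal : ℝ) ^ (1 / 2 : ℝ) *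
            ((Ideal.absNorm v.asIdeal : ℝ) ^ κ + (Ideal.absNorm v.asIdeal : ℝ) ^ (-κ)) := by
    intro j
    obtain ⟨E, h1, h2⟩ := Pool.Agent.V1172.PW.objs l (P := HeightOneSpectrum (𝓞 (K j)))
      (fun v => ((Ideal.absNorm v.asIdeal : ℕ) : ℤ)) (ι := Unit) (fun _ => Large (P j) κ) (s := 1 - 8 * κ)
      (by linarith) (fun _ ε hε => by
        obtain ⟨C, hC⟩ := WindowsWeightTwo.count (P j) hκ hκ1 hε
        refine ⟨C, fun X hX => ?_⟩
        have e : {t : HeightOneSpectrum (𝓞 (K j)) | t ∈ Large (P j) κ ∧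
            |((((Ideal.absNorm t.asIdeal : ℕ) : ℤ)) : ℝ)| ≤ X} = {v | v ∈ Large (P j) κ ∧ nm v ≤ X} := by
          ext v
          refine and_congr_right fun _ => ?_
          rw [Int.cast_natCast, Nat.abs_cast]
          exact Iff.rfl
        rw [e]
        exact hC X hX) hσ
    refine ⟨E, h1, fun a ha => ?_⟩
    obtain ⟨T₀, hT⟩ := h2 a ha ()
    refine ⟨T₀, fun T hT1 v hv hvT hw => ?_⟩
    by_contra hcon
    rw [not_lt] at hcon
    refine hT T hT1 v ?_ ?_ ⟨hv, hcon⟩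
    · rw [Int.cast_natCast, Nat.abs_cast]
      exact hvT
    · rw [Int.cast_natCast]
      exact hw
  choose E hE1 hE2 using one
  refine ⟨⋃ j, E j, ?_, fun a haE j => hE2 j a fun h => haE (Set.mem_iUnion.2 ⟨j, h⟩)⟩
  rw [dimH_iUnion]
  exact iSup_le hE1

end Pool.Agent.Results.MP_4819b8_nt.NormsInResidueClasses
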