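import Mathlib
import Pool.Agent.H274.FWin

/-!
# Hecke characters of weight two of `GL_2` over number fields: all primes with norms in short windows

Let `K` be a number field, `𝔫` an ideal, and `θ` a nontrivial character of the Hecke algebra `𝕋₁(𝔫)`. The
Ramanujan-Petersson bound is `|θ(T_℘)| ≤ 2 (N℘)^{1/2}`. Let `1 ≤ u_0, u_1, …` be reals with `∑ u_m^{-t} < ∞` for `t > τ` (`τ = 0`
for geometric sequences, `τ = 1/d` for `u_m = m^d`), and `ϑ < 1`. We show, for `0 < κ ≤ 1/8`: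

* the number of primes `℘ ∤ 𝔫` with `N℘ ≤ X` and `|θ(T_℘)| ≥ (N℘)^{1/2} ((N℘)^κ + (N℘)^{-κ})` is `O(X^{1 - 8κ + ε})`;
* for all `a > 0` outside of a set of Hausdorff dimension at most `(1 - 8κ + τ) / (1 - ϑ)`, and for ALL `K`, `𝔫` and `θ`, for
  all large `m` (depending on them), ALL primes `℘ ∤ 𝔫` with `|N℘ - a u_m| ≤ u_m^ϑ` satisfy

    `|θ(T_℘)| < (N℘)^{1/2} ((N℘)^κ + (N℘)^{-κ})`;

* in particular for almost all `a > 0` this holds for ALL `K`, `𝔫`, `θ` and all `κ > (ϑ + τ) / 8`.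

There are only countably many number fields, ideals and characters `θ` (the algebra `𝕋₁(𝔫)` has finite rank over `ℤ`). At all
primes the bound is known for `κ = 7/64` (Blomer-Brumley; Kim-Sarnak for `K = ℚ`, where the full bound is known here). The
bound above is better for all windows with `ϑ + τ < 7/8`, and for narrow windows the exponent `κ` is arbitrarily small. For
example, for almost all `a` and all characters, any `κ > 1/16` is allowed for the primes with `|N℘ - a 2^m| ≤ 2^{m/2}`, `m`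
large.

The structure `Character` lists what is used of `θ`: the series `∑_℘ |tr Sym⁴ (θ)_℘|² (N℘)^{-s}` converges for `s > 1`, where
`|tr Sym⁴| = |u² - 3 u + 1|`, `u = |θ(T_℘)|² / N℘`. It is known: a nontrivial `θ` belongs to a unitary cuspidal representation
`π` of `GL_2` over `K` (up to the twist by `|det|^{1/2}`), or `θ(T_℘)` is `(N℘)^{1/2}` times the sum of two numbers of absolute
value one; the symmetric fourth power of `π` is automorphic (Kim), an isobaric sum of unitary cuspidal representations, and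
its Rankin-Selberg series converges (Jacquet, Shalika).

For spherical cusp forms on `PGL_2` over `ℚ` see `MP_fa98d2_nt.WindowsOfPrimes`; for `GL_n` over number fields, with the
exponents which follow from the Rankin-Selberg series of `π` itself (`(ϑ + τ)/2` in place of `(ϑ + τ)/8` for `n = 2`), see
`MP_8410ab_nt.WindowsOfPlaces`.
-/

set_option autoImplicit false

namespace Pool.Agent.Results.MP_4819b8_nt.WindowsWeightTwo

open Filter MeasureTheory NumberField IsDedekindDomain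

/-- the norm of a prime -/
noncomputable def nm {K : Type} [Field K] [NumberField K] (v : HeightOneSpectrum (𝓞 K)) : ℝ :=
  (Ideal.absNorm v.asIdeal : ℝ)

/-- The values `t ℘ = θ(T_℘)` of a nontrivial character of `𝕋₁(𝔫)`, `bad` being the set of the primes `℘ ∣ 𝔫`, and what is
used of them: the Rankin-Selberg series of the symmetric fourth power. -/
structure Character (K : Type) [Field K] [NumberField K] where
  bad : Finset (HeightOneSpectrum (𝓞 K))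
  t : HeightOneSpectrum (𝓞 K) → ℂ
  symFour : ∀ s : ℝ, 1 < s → Summable fun v : {v // v ∉ bad} =>
    ((‖t v‖ ^ 2 / nm v.1) ^ 2 - 3 * (‖t v‖ ^ 2 / nm v.1) + 1) ^ 2 * nm v.1 ^ (-s)

section
variable {K : Type} [Field K] [NumberField K]

/-- `|θ(T_℘)| < (N℘)^{1/2} ((N℘)^κ + (N℘)^{-κ})` for all `℘ ∤ 𝔫` with `|N℘ - x| ≤ y` -/
def Good (P : Character K) (κ x y : ℝ) : Prop :=
  ∀ v : HeightOneSpectrum (𝓞 K), v ∉ P.bad → |nm v - x| ≤ y →
    ‖P.t v‖ < nm v ^ (1 / 2 : ℝ) * (nm v ^ κ + nm v ^ (-κ))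

/-- the set of the primes `℘ ∤ 𝔫` with `|θ(T_℘)| ≥ (N℘)^{1/2} ((N℘)^κ + (N℘)^{-κ})` -/
def Large (P : Character K) (κ : ℝ) : Set (HeightOneSpectrum (𝓞 K)) :=
  {v | v ∉ P.bad ∧ nm v ^ (1 / 2 : ℝ) * (nm v ^ κ + nm v ^ (-κ)) ≤ ‖P.t v‖}

/-- at most `C X^e` primes of norm at most `X`, for every `X ≥ 1` -/
def CountLE (E : Set (HeightOneSpectrum (𝓞 K))) (C e : ℝ) : Prop :=
  ∀ X : ℝ, 1 ≤ X → {v | v ∈ E ∧ nm v ≤ X}.Finite ∧ ({v | v ∈ E ∧ nm v ≤ X}.ncard : ℝ) ≤ C * X ^ e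

theorem two_le_nm (v : HeightOneSpectrum (𝓞 K)) : 2 ≤ nm v := Pool.Agent.H107.Ram.two_le_nm v

/-- monotonicity of the bound -/
theorem bound_mono {N κ κ' : ℝ} (hN : 1 < N) (hκ : 0 ≤ κ) (h : κ ≤ κ') : N ^ κ + N ^ (-κ) ≤ N ^ κ' + N ^ (-κ') := by
  have hN0 : 0 < N := by linarith
  rw [Real.rpow_neg hN0.le, Real.rpow_neg hN0.le]
  have h1 : 1 ≤ N ^ κ := Real.one_le_rpow hN.le hκ
  have h2 : N ^ κ ≤ N ^ κ' := Real.rpow_le_rpow_of_exponent_le hN.le h
  have h3 : 0 < N ^ κ := by linarith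
  have h4 : 0 < N ^ κ' := by linarith
  have h5 : (N ^ κ' + (N ^ κ')⁻¹) - (N ^ κ + (N ^ κ)⁻¹) = (N ^ κ' - N ^ κ) * (N ^ κ' * N ^ κ - 1) / (N ^ κ' * N ^ κ) := by
    field_simp
    ring
  have h6 : 0 ≤ (N ^ κ' - N ^ κ) * (N ^ κ' * N ^ κ - 1) / (N ^ κ' * N ^ κ) :=
    div_nonneg (mul_nonneg (by linarith) (by nlinarith)) (by positivity)
  linarith

theorem Good.mono {P : Character K} {κ κ' x y : ℝ} (hκ : 0 ≤ κ) (h : κ ≤ κ') (hg : Good P κ x y) : Good P κ' x y := by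
  intro v hv hvx
  have hN := two_le_nm v
  exact (hg v hv hvx).trans_le (mul_le_mul_of_nonneg_left (bound_mono (by linarith) hκ h) (by positivity))

/-- counting the primes with large eigenvalues -/
theorem count (P : Character K) {κ : ℝ} (hκ : 0 < κ) (hκ1 : κ ≤ 1 / 8) {ε : ℝ} (hε : 0 < ε) :
    ∃ C : ℝ, CountLE (Large P κ) C (1 - 8 * κ + ε) := by
  refine Pool.Agent.H274.FWin.count_abs P.bad (C₀ := 1)
    (f := fun v => ((‖P.t v‖ ^ 2 / nm v) ^ 2 - 3 * (‖P.t v‖ ^ 2 / nm v) + 1) ^ 2) (by linarith) zero_le_one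
    (fun v => sq_nonneg _) (fun v hv => ?_) P.symFour ε hε
  obtain ⟨h1, h2⟩ := hv
  refine ⟨h1, ?_⟩
  have hN := two_le_nm v
  have hN0 : 0 < nm v := by linarith
  set R : ℝ := nm v ^ κ with hR
  have hR1 : 1 < R := Real.one_lt_rpow (by linarith) hκ
  have hR0 : 0 < R := by linarith
  have h3 : nm v * (R + R⁻¹) ^ 2 ≤ ‖P.t v‖ ^ 2 := by
    have h4 : (nm v ^ (1 / 2 : ℝ) * (R + R⁻¹)) ^ 2 ≤ ‖P.t v‖ ^ 2 := by
      rw [Real.rpow_neg hN0.le] at h2
      exact pow_le_pow_left₀ (by positivity) h2 2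
    have h5 : (nm v ^ (1 / 2 : ℝ) * (R + R⁻¹)) ^ 2 = nm v * (R + R⁻¹) ^ 2 := by
      rw [mul_pow, ← Real.rpow_natCast (nm v ^ (1 / 2 : ℝ)), ← Real.rpow_mul hN0.le]
      norm_num
    rwa [h5] at h4
  set w : ℝ := ‖P.t v‖ ^ 2 / nm v with hw
  have h6 : R ^ 2 + 2 ≤ w := by
    rw [hw, le_div_iff₀ hN0]
    refine le_trans ?_ h3
    have h7 : (R + R⁻¹) ^ 2 = R ^ 2 + 2 + (R⁻¹) ^ 2 := by
      field_simp
      ring
    rw [h7]
    have h8 : 0 < (R⁻¹) ^ 2 := by positivity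
    nlinarith
  have h9 : R ^ 4 ≤ w ^ 2 - 3 * w + 1 := by
    have g1 : 1 ≤ R ^ 2 := by nlinarith
    have g2 : w ^ 2 - 3 * w + 1 = (w - 1) * (w - 2) - 1 := by ring
    have g3 : (R ^ 2 + 1) * R ^ 2 ≤ (w - 1) * (w - 2) :=
      mul_le_mul (by linarith) (by linarith) (by positivity) (by linarith)
    nlinarith
  have h10 : nm v ^ (8 * κ) = (R ^ 4) ^ 2 := by
    rw [hR, ← pow_mul, ← Real.rpow_natCast (nm v ^ κ), ← Real.rpow_mul hN0.le]
    congr 1
    push_cast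
    ring
  show nm v ^ (8 * κ) ≤ _
  rw [h10, one_mul]
  exact pow_le_pow_left₀ (by positivity) h9 2

/-- the windows for one character -/
theorem one (P : Character K) {u : ℕ → ℝ} {τ ϑ : ℝ} (hu : ∀ m, 1 ≤ u m) (hτ : 0 ≤ τ)
    (hgrow : ∀ t : ℝ, τ < t → Summable fun m : ℕ => u m ^ (-t)) (hϑ : ϑ < 1) {κ : ℝ} (hκ : 0 < κ) (hκ1 : κ ≤ 1 / 8) :
    ∃ E : Set ℝ, dimH E ≤ ENNReal.ofReal ((1 - 8 * κ + τ) / (1 - ϑ)) ∧
      ∀ a : ℝ, 0 < a → a ∉ E → ∀ᶠ m in atTop, Good P κ (a * u m) (u m ^ ϑ) := by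
  obtain ⟨E, h1, h2⟩ := Pool.Agent.Y854.GM.windows (Large P κ) nm hu hτ hgrow (by linarith) hϑ
    (fun ε hε => count P hκ hκ1 hε)
  refine ⟨E, h1, fun a ha haE => ?_⟩
  obtain ⟨m₀, hm₀⟩ := h2 a ha haE
  refine Filter.eventually_atTop.2 ⟨m₀, fun m hm v hv hva => ?_⟩
  by_contra hcon
  rw [not_lt] at hcon
  exact absurd hva (not_le.2 (hm₀ m hm v ⟨hv, hcon⟩))

end

/-- **Theorem.** Let `P j` be a countable family of nontrivial characters (for example all the nontrivial characters of all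
the Hecke algebras `𝕋₁(𝔫)` over all number fields), let `1 ≤ u_m`, `∑_m u_m^{-t} < ∞` for all `t > τ`, and `ϑ < 1`.
(1) The number of primes with a large eigenvalue. (2) The windows around `a u_m`, for `a` outside of a set of small
dimension. (3) The windows for almost all `a`. -/
theorem result {J : Type} [Countable J] (K : J → Type) [∀ j, Field (K j)] [∀ j, NumberField (K j)]
    (P : ∀ j, Character (K j)) (u : ℕ → ℝ) (τ ϑ : ℝ) (hu : ∀ m, 1 ≤ u m) (hτ : 0 ≤ τ)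
    (hgrow : ∀ t : ℝ, τ < t → Summable fun m : ℕ => u m ^ (-t)) (hϑ : ϑ < 1) :
    (∀ (j : J) (κ ε : ℝ), 0 < κ → κ ≤ 1 / 8 → 0 < ε → ∃ C : ℝ, CountLE (Large (P j) κ) C (1 - 8 * κ + ε)) ∧
    (∀ κ : ℝ, 0 < κ → κ ≤ 1 / 8 → ∃ E : Set ℝ, dimH E ≤ ENNReal.ofReal ((1 - 8 * κ + τ) / (1 - ϑ)) ∧
      ∀ a : ℝ, 0 < a → a ∉ E → ∀ j, ∀ᶠ m in atTop, Good (P j) κ (a * u m) (u m ^ ϑ)) ∧
    ∀ᵐ a : ℝ, 0 < a → ∀ (j : J) (κ : ℝ), 0 < κ → (ϑ + τ) / 8 < κ → κ ≤ 1 / 8 →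
      ∀ᶠ m in atTop, Good (P j) κ (a * u m) (u m ^ ϑ) := by
  refine ⟨fun j κ ε hκ hκ1 hε => count (P j) hκ hκ1 hε, fun κ hκ hκ1 => ?_, ?_⟩
  · choose E hE1 hE2 using fun j => one (P j) hu hτ hgrow hϑ hκ hκ1
    refine ⟨⋃ j, E j, ?_, fun a ha haE j => hE2 j a ha fun h => haE (Set.mem_iUnion.2 ⟨j, h⟩)⟩
    rw [dimH_iUnion]
    exact iSup_le hE1
  · have hq : ∀ (j : J) (q : ℚ), ∀ᵐ a : ℝ, 0 < (q : ℝ) → (q : ℝ) ≤ 1 / 8 → (ϑ + τ) / 8 < q → 0 < a →
        ∀ᶠ m in atTop, Good (P j) q (a * u m) (u m ^ ϑ) := by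
      intro j q
      by_cases hc : 0 < (q : ℝ) ∧ (q : ℝ) ≤ 1 / 8 ∧ (ϑ + τ) / 8 < q
      · obtain ⟨h1, h2, h3⟩ := hc
        obtain ⟨E, hE1, hE2⟩ := one (P j) hu hτ hgrow hϑ h1 h2
        have hnull : volume E = 0 := by
          rw [← hausdorffMeasure_real]
          refine hausdorffMeasure_of_dimH_lt (d := 1) (hE1.trans_lt ?_)
          have g1 : (1 - 8 * q + τ) / (1 - ϑ) < 1 := by
            rw [div_lt_one (by linarith)]
            linarith
          simpa using (ENNReal.ofReal_lt_one).2 g1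
        filter_upwards [compl_mem_ae_iff.2 hnull] with a ha _ _ _ ha0
        exact hE2 a ha0 ha
      · exact Filter.Eventually.of_forall fun a h1 h2 h3 _ => absurd ⟨h1, h2, h3⟩ hc
    have hall : ∀ᵐ a : ℝ, ∀ (j : J) (q : ℚ), 0 < (q : ℝ) → (q : ℝ) ≤ 1 / 8 → (ϑ + τ) / 8 < q → 0 < a →
        ∀ᶠ m in atTop, Good (P j) q (a * u m) (u m ^ ϑ) := by
      rw [ae_all_iff]
      intro j
      rw [ae_all_iff]
      exact hq j
    filter_upwards [hall] with a ha ha0 j κ hκ hκ2 hκ1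
    obtain ⟨q, hq1, hq2⟩ := exists_rat_btwn (show max 0 ((ϑ + τ) / 8) < κ from max_lt hκ hκ2)
    have hq0 : 0 < (q : ℝ) := (le_max_left _ _).trans_lt hq1
    exact (ha j q hq0 (by linarith) ((le_max_right _ _).trans_lt hq1) ha0).mono fun m hm => hm.mono hq0.le hq2.le

end Pool.Agent.Results.MP_4819b8_nt.WindowsWeightTwo
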