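import Mathlib
import Pool.Agent.Results.MP_4819b8_nt.WindowsWeightTwo
import Pool.Agent.V11001.KM.Near

/-!
# Hecke characters of weight two of `GL_2` over number fields: all primes with norms near the powers of almost every number

Let `θ_j` be the nontrivial characters of the Hecke algebras `𝕋₁(𝔫)` over all number fields, `ν n / log n → ∞`, for example
`ν n = n`, and let `U` be a countable set of real numbers. We show:

* for `0 < κ ≤ 1/8` and `θ < 1` there is a set `E` of Hausdorff dimension at most `(1 - 8κ) / (1 - θ)` such that for all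
  `z > 1` outside `E`, all `b > 0` in `U` and all `θ_j` ALL primes `℘ ∤ 𝔫` of large norm with
  `|N℘ - b z ^ (ν n)| ≤ z ^ (θ ν n)` for some `n` satisfy `|θ_j(T_℘)| < (N℘)^{1/2} ((N℘)^κ + (N℘)^{-κ})`;
* for almost all `z > 1` the same holds for all `κ > 0`, `κ > θ / 8`, `κ ≤ 1/8`, at the same time.

At all primes the bound is known for `κ = 7/64` (Blomer, Brumley), and the bound above is better for all `θ < 7/8`. The
exponent `κ` is arbitrarily small for narrow windows. The characters and the count of the primes with large eigenvalues are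
those of `WindowsWeightTwo`.
-/

set_option autoImplicit false

open Filter MeasureTheory NumberField IsDedekindDomain

namespace Pool.Agent.Results.MP_4819b8_nt.PrimesNearPowers

open Pool.Agent.V11001.KM
open Pool.Agent.Results.MP_4819b8_nt.WindowsWeightTwo

/-- `|θ(T_℘)| < (N℘)^{1/2} ((N℘)^κ + (N℘)^{-κ})` for all `℘ ∤ 𝔫` of norm at least `X₀` with
`|N℘ - b z ^ (ν n)| ≤ z ^ (θ ν n)` for some `n` -/
def GoodNear {K : Type} [Field K] [NumberField K] (P : Character K) (κ : ℝ) (ν : ℕ → ℝ) (θ b z X₀ : ℝ) : Prop :=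
  ∀ v : HeightOneSpectrum (𝓞 K), v ∉ P.bad → X₀ ≤ nm v → Near ν θ b z (nm v) →
    ‖P.t v‖ < nm v ^ (1 / 2 : ℝ) * (nm v ^ κ + nm v ^ (-κ))

theorem GoodNear.mono {K : Type} [Field K] [NumberField K] {P : Character K} {κ κ' : ℝ} {ν : ℕ → ℝ} {θ b z X₀ : ℝ}
    (hκ : 0 ≤ κ) (h : κ ≤ κ') (hg : GoodNear P κ ν θ b z X₀) : GoodNear P κ' ν θ b z X₀ := by
  intro v hv hX hn
  have hN := two_le_nm v
  exact (hg v hv hX hn).trans_le (mul_le_mul_of_nonneg_left (bound_mono (by linarith) hκ h) (by positivity))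

section
variable {J : Type} (K : J → Type) [∀ j, Field (K j)] [∀ j, NumberField (K j)] (P : ∀ j, Character (K j))

/-- the primes with large eigenvalues, for the family of the characters -/
def Fam (κ : ℝ) (j : J) : Set (Σ j, HeightOneSpectrum (𝓞 (K j))) := Sigma.mk j '' Large (P j) κ

/-- the norm -/
noncomputable def ht (t : Σ j, HeightOneSpectrum (𝓞 (K j))) : ℝ := nm t.2

theorem fam_count (j : J) {κ : ℝ} (hκ : 0 < κ) (hκ1 : κ ≤ 1 / 8) (ε : ℝ) (hε : 0 < ε) :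
    ∃ C : ℝ, ∀ X : ℝ, 1 ≤ X → {t | t ∈ Fam K P κ j ∧ ht K t ≤ X}.Finite ∧
      ({t | t ∈ Fam K P κ j ∧ ht K t ≤ X}.ncard : ℝ) ≤ C * X ^ (1 - 8 * κ + ε) := by
  obtain ⟨C, hC⟩ := count (P j) hκ hκ1 hε
  refine ⟨C, fun X hX => ?_⟩
  obtain ⟨h1, h2⟩ := hC X hX
  have heq : {t | t ∈ Fam K P κ j ∧ ht K t ≤ X} =
      Sigma.mk j '' {v : HeightOneSpectrum (𝓞 (K j)) | v ∈ Large (P j) κ ∧ nm v ≤ X} := by
    ext t
    constructor
    · rintro ⟨⟨v, hv, rfl⟩, hX⟩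
      exact ⟨v, ⟨hv, hX⟩, rfl⟩
    · rintro ⟨v, ⟨hv, hX⟩, rfl⟩
      exact ⟨⟨v, hv, rfl⟩, hX⟩
  rw [heq]
  refine ⟨h1.image _, ?_⟩
  rw [Set.ncard_image_of_injective _ (sigma_mk_injective (i := j))]
  exact h2

theorem good_of (j : J) {κ : ℝ} {ν : ℕ → ℝ} {θ b z H₀ : ℝ}
    (h : ∀ t ∈ Fam K P κ j, Near ν θ b z (ht K t) → ht K t < H₀) : GoodNear (P j) κ ν θ b z H₀ := by
  intro v hv hX hn
  by_contra hcon
  rw [not_lt] at hcon
  exact absurd (h ⟨j, v⟩ ⟨v, ⟨hv, hcon⟩, rfl⟩ hn) (not_lt.2 hX)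

end

/-- **Theorem.** Let `P j` be a countable family of nontrivial characters (for example all the nontrivial characters of all
the Hecke algebras `𝕋₁(𝔫)` over all number fields), let `ν n / log n → ∞`, and let `U` be a countable set of real numbers.
(1) Let `0 < κ ≤ 1/8` and `θ < 1`. For all `z > 1` outside a set of Hausdorff dimension at most `(1 - 8κ) / (1 - θ)`, all
`b > 0` in `U` and all `j` ALL primes `℘ ∤ 𝔫` of large norm with `|N℘ - b z ^ (ν n)| ≤ z ^ (θ ν n)` for some `n` satisfy the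
bound. (2) For almost all `z > 1` this holds for all `θ`, all `κ` with `0 < κ ≤ 1/8`, `θ / 8 < κ`, all `b` and all `j`. -/
theorem result {J : Type} [Countable J] (K : J → Type) [∀ j, Field (K j)] [∀ j, NumberField (K j)]
    (P : ∀ j, Character (K j)) (ν : ℕ → ℝ) (hν : Fast ν) (U : Set ℝ) (hU : U.Countable) :
    (∀ κ θ : ℝ, 0 < κ → κ ≤ 1 / 8 → θ < 1 → ∃ E : Set ℝ, dimH E ≤ ENNReal.ofReal ((1 - 8 * κ) / (1 - θ)) ∧
      ∀ z : ℝ, 1 < z → z ∉ E → ∀ b ∈ U, 0 < b → ∀ j, ∃ X₀ : ℝ, GoodNear (P j) κ ν θ b z X₀) ∧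
    ∀ᵐ z : ℝ, 1 < z → ∀ θ κ : ℝ, 0 < κ → κ ≤ 1 / 8 → θ / 8 < κ → ∀ b ∈ U, 0 < b → ∀ j,
      ∃ X₀ : ℝ, GoodNear (P j) κ ν θ b z X₀ := by
  refine ⟨fun κ θ hκ hκ1 hθ => ?_, ?_⟩
  · obtain ⟨E, h1, h2⟩ := family_threshold (ht K) hν (s := 1 - 8 * κ) (by linarith) hθ U hU (Fam K P κ)
      (fun j ε hε => fam_count K P j hκ hκ1 ε hε)
    refine ⟨E, h1, fun z hz hzE b hb hb0 j => ?_⟩
    obtain ⟨H₀, h3⟩ := h2 z hz hzE b hb hb0 j
    exact ⟨H₀, good_of K P j h3⟩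
  · have hq : ∀ q : {q : ℚ // 0 < (q : ℝ) ∧ (q : ℝ) ≤ 1 / 8}, ∀ᵐ z : ℝ, 1 < z → ∀ θ : ℝ, θ < 1 - (1 - 8 * (q.1 : ℝ)) →
        ∀ b ∈ U, 0 < b → ∀ j : J, ∃ H₀ : ℝ, ∀ t ∈ Fam K P q.1 j, Near ν θ b z (ht K t) → ht K t < H₀ := fun q =>
      ae_family_threshold (ht K) hν (s := 1 - 8 * (q.1 : ℝ)) (by linarith [q.2.2]) U hU (Fam K P q.1)
        (fun j ε hε => fam_count K P j q.2.1 q.2.2 ε hε)
    rw [← ae_all_iff] at hq
    filter_upwards [hq] with z hz hz1 θ κ hκ hκ1 hθ b hb hb0 j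
    obtain ⟨q, hq1, hq2⟩ := exists_rat_btwn (show max 0 (θ / 8) < κ from max_lt hκ hθ)
    have hq0 : 0 < (q : ℝ) := (le_max_left _ _).trans_lt hq1
    have hq3 : θ / 8 < q := (le_max_right _ _).trans_lt hq1
    obtain ⟨H₀, h3⟩ := hz ⟨q, hq0, by linarith⟩ hz1 θ (by simp only; linarith) b hb hb0 j
    exact ⟨H₀, (good_of K P j h3).mono hq0.le hq2.le⟩

end Pool.Agent.Results.MP_4819b8_nt.PrimesNearPowers
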